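import Mathlib

namespace Pool.Agent.Results.MP_990fd9_pr.Speedup

open scoped ENNReal Classical

variable {V : Type} [Fintype V]

/-- one-step transition probability of the simple random walk on the digraph `E` -/
noncomputable def step (E : V → V → Prop) (x y : V) : ℝ≥0∞ :=
  if E x y then (((Finset.univ.filter (fun z => E x z)).card : ℕ) : ℝ≥0∞)⁻¹ else 0

/-- probability that the walk started at `u` visits `p 0, ..., p t` at times `0, ..., t` -/
noncomputable def pathProb (E : V → V → Prop) (u : V) (t : ℕ) (p : Fin (t + 1) → V) : ℝ≥0∞ :=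
  if p 0 = u then ∏ i : Fin t, step E (p i.castSucc) (p i.succ) else 0

/-- probability that none of `k` independent walks started at `u 0, ..., u (k-1)` has visited
`v` up to time `t`, that is, that the joint hitting time exceeds `t` -/
noncomputable def tail (E : V → V → Prop) {k : ℕ} (u : Fin k → V) (v : V) (t : ℕ) : ℝ≥0∞ :=
  ∑ p : Fin k → Fin (t + 1) → V,
    if ∀ i s, p i s ≠ v then ∏ i, pathProb E (u i) t (p i) else 0

/-- expected joint hitting time, as the sum of the tail probabilities -/
noncomputable def hit (E : V → V → Prop) {k : ℕ} (u : Fin k → V) (v : V) : ℝ≥0∞ :=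
  ∑' t : ℕ, tail E u v t

/-- worst expected joint hitting time of `k` independent walks -/
noncomputable def hmax (E : V → V → Prop) (k : ℕ) : ℝ≥0∞ :=
  ⨆ (u : Fin k → V) (v : V), hit E u v

/-- single walk tail -/
noncomputable def S (E : V → V → Prop) (v : V) (t : ℕ) (u : V) : ℝ≥0∞ :=
  ∑ p : Fin (t + 1) → V, if ∀ s, p s ≠ v then pathProb E u t p else 0

theorem tail_eq (E : V → V → Prop) {k : ℕ} (u : Fin k → V) (v : V) (t : ℕ) :
    tail E u v t = ∏ i, S E v t (u i) := by
  unfold tail S
  rw [Finset.prod_univ_sum, Fintype.piFinset_univ]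
  refine Finset.sum_congr rfl fun p _ => ?_
  by_cases h : ∀ i s, p i s ≠ v
  · rw [if_pos h]
    exact Finset.prod_congr rfl fun i _ => (if_pos (h i)).symm
  · rw [if_neg h]
    push Not at h
    obtain ⟨i, s, h⟩ := h
    symm
    exact Finset.prod_eq_zero (Finset.mem_univ i) (if_neg fun h' => h' s h)

theorem S_zero (E : V → V → Prop) (v u : V) : S E v 0 u = if u = v then 0 else 1 := by
  unfold S pathProb
  rw [← (Equiv.funUnique (Fin 1) V).symm.sum_comp]
  rw [Finset.sum_eq_single u]
  · simp
  · intro b _ hb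
    simp [hb]
  · simp

theorem S_succ (E : V → V → Prop) (v u : V) (t : ℕ) :
    S E v (t + 1) u = if u = v then 0 else ∑ w, step E u w * S E v t w := by
  unfold S
  rw [← (Fin.consEquiv (fun _ : Fin (t + 2) => V)).sum_comp, Fintype.sum_prod_type,
    Finset.sum_eq_single u]
  · split_ifs with h
    · refine Finset.sum_eq_zero fun q _ => if_neg fun h' => h' 0 (by simp [Fin.consEquiv, h])
    · simp only [Finset.mul_sum]
      rw [Finset.sum_comm]
      refine Finset.sum_congr rfl fun q _ => ?_
      rw [Finset.sum_eq_single (q 0)]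
      · simp only [Fin.consEquiv, Equiv.coe_fn_mk, pathProb, Fin.forall_fin_succ, Fin.cons_zero,
          Fin.cons_succ, if_true, Fin.prod_univ_succ, Fin.castSucc_zero, ne_eq, h,
          not_false_eq_true, true_and, Fin.castSucc_succ, mul_ite, mul_zero]
      · intro b _ hb
        simp [pathProb, hb.symm]
      · simp
  · intro b _ hb
    refine Finset.sum_eq_zero fun q _ => ?_
    simp [pathProb, Fin.consEquiv, hb]
  · simp

theorem step_sum (E : V → V → Prop) (u : V) : ∑ w, step E u w ≤ 1 := by
  unfold step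
  rw [← Finset.sum_filter, Finset.sum_const, nsmul_eq_mul]
  exact ENNReal.mul_inv_le_one _

theorem S_le_one (E : V → V → Prop) (v : V) (t : ℕ) : ∀ u, S E v t u ≤ 1 := by
  induction t with
  | zero => intro u; rw [S_zero]; split_ifs <;> simp
  | succ t ih =>
    intro u
    rw [S_succ]
    split_ifs
    · simp
    · refine le_trans (Finset.sum_le_sum fun w _ => ?_) (step_sum E u)
      exact mul_le_of_le_one_right' (ih w)

theorem renew (E : V → V → Prop) (v : V) (T : ℕ) (H : ℝ≥0∞)
    (hH : ∀ w, ∑ s ∈ Finset.range T, S E v s w ≤ H) (t : ℕ) :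
    ∀ u, ∑ s ∈ Finset.range T, S E v (t + s) u ≤ H * S E v t u := by
  induction t with
  | zero =>
    intro u
    rw [S_zero]
    split_ifs with h
    · rw [Finset.sum_eq_zero]
      · simp
      · intro s _
        cases s with
        | zero => rw [S_zero, if_pos h]
        | succ s => rw [zero_add, S_succ, if_pos h]
    · simpa using hH u
  | succ t ih =>
    intro u
    simp only [add_right_comm t 1, S_succ]
    split_ifs with h
    · simp
    · rw [Finset.sum_comm, Finset.mul_sum]
      refine Finset.sum_le_sum fun w _ => ?_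
      rw [← Finset.mul_sum, mul_left_comm]
      gcongr
      exact ih w

theorem real_ineq (k T : ℕ) (hk : 1 ≤ k) (a : ℕ → ℝ) (ha : ∀ t, 0 ≤ a t) (H : ℝ)
    (hH : H = ∑ s ∈ Finset.range T, a s)
    (h : ∀ t, ∑ s ∈ Finset.range T, a (t + s) ≤ H * a t) :
    H ≤ k * ∑ s ∈ Finset.range T, a s ^ k := by
  obtain ⟨m, rfl⟩ := Nat.exists_eq_add_of_le' hk
  have hH0 : 0 ≤ H := hH ▸ Finset.sum_nonneg fun _ _ => ha _
  rcases hH0.eq_or_lt with h0 | hpos
  · rw [← h0]
    exact mul_nonneg (by positivity) (Finset.sum_nonneg fun _ _ => pow_nonneg (ha _) _)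
  set G : ℕ → ℝ := fun t => ∑ s ∈ Finset.Ico t T, a s with hG
  have hG0 : ∀ t, 0 ≤ G t := fun t => Finset.sum_nonneg fun _ _ => ha _
  have hGle : ∀ t, G t ≤ H * a t := by
    intro t
    refine le_trans ?_ (h t)
    simp only [hG]
    rw [Finset.sum_Ico_eq_sum_range]
    exact Finset.sum_le_sum_of_subset_of_nonneg (Finset.range_subset_range.2 (Nat.sub_le _ _))
      fun _ _ _ => ha _
  have hstep : ∀ t ∈ Finset.range T, G t ^ (m + 1) - G (t + 1) ^ (m + 1) ≤
      H ^ m * ((m + 1 : ℕ) * a t ^ (m + 1)) := by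
    intro t ht
    have e : G t = a t + G (t + 1) := by
      simp only [hG]
      rw [Finset.sum_eq_sum_Ico_succ_bot (Finset.mem_range.1 ht)]
    have h1 : G (t + 1) ≤ G t := by linarith [ha t]
    have h2 : G t ^ (m + 1) - G (t + 1) ^ (m + 1) ≤ (m + 1 : ℕ) * G t ^ m * a t := by
      have h3 := (Commute.all (G t) (G (t + 1))).geom_sum₂_mul (m + 1)
      rw [← h3, show G t - G (t + 1) = a t by linarith]
      refine mul_le_mul_of_nonneg_right ?_ (ha t)
      calc _ ≤ ∑ i ∈ Finset.range (m + 1), G t ^ m := Finset.sum_le_sum fun i hi => by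
            have hi' : i ≤ m := Nat.lt_succ_iff.1 (Finset.mem_range.1 hi)
            calc G t ^ i * G (t + 1) ^ (m + 1 - 1 - i) ≤ G t ^ i * G t ^ (m + 1 - 1 - i) := by
                  have := hG0 t
                  have := hG0 (t + 1)
                  gcongr
              _ = G t ^ m := by rw [← pow_add]; congr 1; omega
        _ = _ := by simp
    calc _ ≤ _ := h2
      _ ≤ (m + 1 : ℕ) * (H * a t) ^ m * a t := by
        have := hG0 t
        have := ha t
        have := hGle t
        gcongr
      _ = _ := by ring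
  have h4 := Finset.sum_le_sum hstep
  rw [Finset.sum_range_sub' (fun t => G t ^ (m + 1)), ← Finset.mul_sum, ← Finset.mul_sum] at h4
  have g0 : G 0 = H := by simp only [hG]; rw [hH, Finset.range_eq_Ico]
  have gT : G T = 0 := by simp [hG]
  rw [g0, gT, zero_pow (Nat.succ_ne_zero m), sub_zero, pow_succ] at h4
  exact le_of_mul_le_mul_left h4 (pow_pos hpos m)

theorem result (V : Type) [Fintype V] (E : V → V → Prop)
    (_hconn : ∀ u v, Relation.ReflTransGen E u v) (k : ℕ) (hk : 1 ≤ k) :
    hmax E 1 ≤ k * hmax E k := by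
  refine iSup_le fun u => iSup_le fun v => ?_
  unfold hit
  rw [ENNReal.tsum_eq_iSup_nat]
  refine iSup_le fun T => ?_
  simp only [tail_eq, Fin.prod_univ_one]
  obtain ⟨w, -, hw⟩ := Finset.exists_max_image Finset.univ
    (fun w => ∑ s ∈ Finset.range T, S E v s w) ⟨u 0, Finset.mem_univ _⟩
  refine (hw (u 0) (Finset.mem_univ _)).trans ?_
  have hne : ∀ t, S E v t w ≠ ∞ := fun t => ne_top_of_le_ne_top ENNReal.one_ne_top (S_le_one E v t w)
  have hsum : ∀ t, ∑ s ∈ Finset.range T, S E v (t + s) w ≠ ∞ := fun t =>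
    ENNReal.sum_ne_top.2 fun _ _ => hne _
  have hH : ∑ s ∈ Finset.range T, S E v s w ≠ ∞ := ENNReal.sum_ne_top.2 fun _ _ => hne _
  have h1 := real_ineq k T hk (fun t => (S E v t w).toReal) (fun _ => ENNReal.toReal_nonneg)
    (∑ s ∈ Finset.range T, S E v s w).toReal (ENNReal.toReal_sum fun _ _ => hne _) (by
      intro t
      rw [← ENNReal.toReal_sum fun _ _ => hne _, ← ENNReal.toReal_mul]
      exact ENNReal.toReal_mono (ENNReal.mul_ne_top hH (hne t))
        (renew E v T _ (fun x => hw x (Finset.mem_univ _)) t w))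
  have h2 : ∑ s ∈ Finset.range T, S E v s w ≤ k * ∑ s ∈ Finset.range T, S E v s w ^ k := by
    have hk' : ∑ s ∈ Finset.range T, S E v s w ^ k ≠ ∞ :=
      ENNReal.sum_ne_top.2 fun _ _ => ENNReal.pow_ne_top (hne _)
    rw [← ENNReal.toReal_le_toReal hH (ENNReal.mul_ne_top (by simp) hk'), ENNReal.toReal_mul,
      ENNReal.toReal_sum (s := Finset.range T) (f := fun s => S E v s w ^ k)
        fun _ _ => ENNReal.pow_ne_top (hne _)]
    simpa using h1
  refine h2.trans ?_
  gcongr
  refine le_trans ?_ (le_iSup₂ (f := fun (u : Fin k → V) (v : V) => hit E u v) (fun _ => w) v)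
  unfold hit
  simp only [tail_eq, Finset.prod_const, Finset.card_univ, Fintype.card_fin]
  exact ENNReal.sum_le_tsum _

end Pool.Agent.Results.MP_990fd9_pr.Speedup
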